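import Mathlib

set_option autoImplicit false

namespace Pool.Agent.Results.MP_007251_co.Cograph

open Classical Finset

/-- The set `S` of vertices induces an odd subgraph of `G`: every vertex of `S` has an odd number of
neighbours inside `S`. -/
def OddInduced {V : Type} (G : SimpleGraph V) (S : Finset V) : Prop :=
  ∀ v ∈ S, Odd (S.filter (fun u => G.Adj v u)).card

/-- The largest number of vertices of an odd induced subgraph of `G`. -/
noncomputable def mos {V : Type} [Fintype V] (G : SimpleGraph V) : ℕ :=
  sSup {k | ∃ S : Finset V, OddInduced G S ∧ S.card = k}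

/-- A cograph is a graph without an induced path on four vertices. -/
def IsCograph {V : Type} (G : SimpleGraph V) : Prop :=
  IsEmpty (SimpleGraph.pathGraph 4 ↪g G)

/-- The least value of `mos` over all cographs on `n` vertices without isolated vertices. -/
noncomputable def minMos (n : ℕ) : ℕ :=
  sInf {k | ∃ G : SimpleGraph (Fin n), IsCograph G ∧ (∀ v, ∃ u, G.Adj v u) ∧ mos G = k}

/-! ### Symmetric sums over the two-element field -/

section Sums

variable {V : Type} [Fintype V]

theorem sum_symm_zero (T : Finset V) (f : V → V → ZMod 2) (hs : ∀ u v, f u v = f v u)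
    (h0 : ∀ v, f v v = 0) : ∑ u ∈ T, ∑ v ∈ T, f u v = 0 := by
  rw [← Finset.sum_product']
  apply Finset.sum_involution (fun p _ => (p.2, p.1))
  · intro p _
    rw [hs p.2 p.1]
    exact CharTwo.add_self_eq_zero _
  · intro p _ hne heq
    apply hne
    have : p.2 = p.1 := congrArg Prod.fst heq
    rw [this]
    exact h0 _
  · intro p hp
    rw [Finset.mem_product] at hp ⊢
    exact ⟨hp.2, hp.1⟩
  · intro p _
    rfl

theorem sq_self (x : ZMod 2) : x * x = x := by
  revert x; decide

theorem zmod2_of_ne_one : ∀ z : ZMod 2, ¬ z = 1 → z = 0 := by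
  decide

/-- The diagonal of a symmetric matrix over the two-element field is in its column space. -/
theorem diag_mem_range (M : V → V → ZMod 2) (hM : ∀ u v, M u v = M v u) :
    ∃ x : V → ZMod 2, ∀ v, ∑ u, M v u * x u = M v v := by
  let L : (V → ZMod 2) →ₗ[ZMod 2] (V → ZMod 2) := (Matrix.of M).mulVecLin
  by_contra hcon
  have hnot : (fun v => M v v) ∉ LinearMap.range L := by
    rintro ⟨x, hx⟩
    apply hcon
    refine ⟨x, fun v => ?_⟩
    have := congrFun hx v
    simpa [L, Matrix.mulVec, dotProduct] using this
  obtain ⟨f, hf, hker⟩ := Submodule.exists_le_ker_of_notMem hnot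
  let y : V → ZMod 2 := fun v => f (Pi.single v 1)
  have hfy : ∀ z : V → ZMod 2, f z = ∑ v, z v * y v := by
    intro z
    have : z = ∑ v, z v • (Pi.single v (1 : ZMod 2) : V → ZMod 2) := by
      ext w
      simp [Finset.sum_apply, Pi.single_apply]
    conv_lhs => rw [this]
    rw [map_sum]
    simp [y]
  have hy : ∀ x : V → ZMod 2, ∑ v, (∑ u, M v u * x u) * y v = 0 := by
    intro x
    have h1 : f (L x) = 0 := hker ⟨x, rfl⟩
    rw [hfy] at h1
    simpa [L, Matrix.mulVec, dotProduct] using h1
  have h2 := hy y
  apply hf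
  rw [hfy]
  have h3 : ∑ v, ∑ u, (if u = v then 0 else y v * M v u * y u) = (0 : ZMod 2) := by
    apply sum_symm_zero
    · intro u v
      by_cases huv : u = v
      · subst huv; rfl
      · have huv' : ¬ v = u := fun h => huv h.symm
        rw [if_neg huv', if_neg huv, hM u v]
        ring
    · intro v
      simp
  have h4 : ∑ v, (∑ u, M v u * y u) * y v
      = ∑ v, ∑ u, (if u = v then 0 else y v * M v u * y u) + ∑ v, M v v * y v := by
    rw [← Finset.sum_add_distrib]
    apply Finset.sum_congr rfl
    intro v _
    have h5 : M v v * y v = ∑ u, (if u = v then M v v * y v else 0) := by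
      simp
    rw [h5, ← Finset.sum_add_distrib, Finset.sum_mul]
    apply Finset.sum_congr rfl
    intro u _
    by_cases huv : u = v
    · subst huv
      rw [if_pos rfl, if_pos rfl, mul_assoc, sq_self, zero_add]
    · rw [if_neg huv, if_neg huv]
      ring
  rw [h4, h3, zero_add] at h2
  exact h2

end Sums

/-! ### Gallai's theorem -/

section Gallai

variable {V : Type} [Fintype V] (G : SimpleGraph V)

/-- Adjacency as an element of the two-element field. -/
noncomputable def adj (u v : V) : ZMod 2 := if G.Adj u v then 1 else 0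

theorem adj_symm (u v : V) : adj G u v = adj G v u := by
  unfold adj
  rw [G.adj_comm]

theorem adj_self (v : V) : adj G v v = 0 := by
  unfold adj
  simp

theorem cast_nbrs (S : Finset V) (v : V) :
    (((S.filter (fun u => G.Adj v u)).card : ℕ) : ZMod 2) = ∑ u ∈ S, adj G v u := by
  unfold adj
  rw [Finset.sum_boole]

theorem odd_iff (n : ℕ) : Odd n ↔ (n : ZMod 2) = 1 := (ZMod.natCast_eq_one_iff_odd).symm

theorem even_iff (n : ℕ) : Even n ↔ (n : ZMod 2) = 0 := (ZMod.natCast_eq_zero_iff_even).symm

/-- An odd induced subgraph has an even number of vertices. -/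
theorem OddInduced.even {G : SimpleGraph V} {S : Finset V} (h : OddInduced G S) :
    Even S.card := by
  rw [even_iff]
  have h1 : ∑ v ∈ S, ∑ u ∈ S, adj G v u = 0 := sum_symm_zero S _ (adj_symm G) (adj_self G)
  have h2 : ∑ v ∈ S, ∑ u ∈ S, adj G v u = ∑ v ∈ S, (1 : ZMod 2) := by
    apply Finset.sum_congr rfl
    intro v hv
    rw [← cast_nbrs]
    exact (odd_iff _).mp (h v hv)
  rw [h2] at h1
  simpa using h1

/-- Gallai: the vertices in `A` split into a part inducing an odd subgraph and a part inducing an
even subgraph. -/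
theorem gallai (A : Finset V) : ∃ T R : Finset V, T ∪ R = A ∧ Disjoint T R ∧ OddInduced G T ∧
    ∀ v ∈ R, Even (R.filter (fun u => G.Adj v u)).card := by
  let a : V → V → ZMod 2 := fun v u => if v ∈ A ∧ u ∈ A then adj G v u else 0
  let dg : V → ZMod 2 := fun v => ∑ u, a v u
  let M : V → V → ZMod 2 := fun v u => a v u + if v = u then 1 + dg v else 0
  have ha : ∀ u v, a u v = a v u := by
    intro u v
    simp only [a]
    have : (u ∈ A ∧ v ∈ A) ↔ (v ∈ A ∧ u ∈ A) := and_comm
    simp only [adj_symm G u v, this]
  have ha0 : ∀ v, a v v = 0 := by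
    intro v
    simp only [a, adj_self]
    simp
  have hM : ∀ u v, M u v = M v u := by
    intro u v
    simp only [M]
    rw [ha u v]
    by_cases h : u = v
    · subst h; rfl
    · rw [if_neg h, if_neg (fun h' => h h'.symm)]
  obtain ⟨x0, hx0⟩ := diag_mem_range M hM
  -- x = x0 + 1 solves the system
  have hx : ∀ v, ∑ u, M v u * (x0 u + 1) = dg v := by
    intro v
    have h1 : ∑ u, M v u * (x0 u + 1) = ∑ u, M v u * x0 u + ∑ u, M v u := by
      rw [← Finset.sum_add_distrib]
      apply Finset.sum_congr rfl
      intro u _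
      ring
    have h2 : ∑ u, M v u = dg v + (1 + dg v) := by
      simp only [M]
      rw [Finset.sum_add_distrib]
      simp [dg]
    rw [h1, hx0, h2]
    simp only [M]
    rw [ha0]
    simp only [if_true]
    have h3 : ∀ z : ZMod 2, 0 + (1 + z) + (z + (1 + z)) = z := by decide
    exact h3 _
  let x : V → ZMod 2 := fun v => x0 v + 1
  have hx' : ∀ v, ∑ u, a v u * x u + (1 + dg v) * x v = dg v := by
    intro v
    have h := hx v
    have h2 : ∑ u, M v u * (x0 u + 1) = ∑ u, a v u * x u + (1 + dg v) * x v := by
      have h3 : ∀ u, M v u * (x0 u + 1)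
          = a v u * x u + (if v = u then (1 + dg v) * x v else 0) := by
        intro u
        by_cases hvu : v = u
        · subst hvu
          simp only [M, x, if_true]
          ring
        · simp only [M, x, if_neg hvu]
          ring
      simp_rw [h3]
      rw [Finset.sum_add_distrib]
      simp
    rw [← h2]
    exact h
  refine ⟨A.filter (fun v => x v = 1), A.filter (fun v => ¬ x v = 1), ?_, ?_, ?_, ?_⟩
  · exact Finset.filter_union_filter_not_eq _ _
  · exact Finset.disjoint_filter_filter_not _ _ _
  · intro v hv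
    rw [Finset.mem_filter] at hv
    rw [odd_iff, cast_nbrs]
    have h1 := hx' v
    rw [hv.2] at h1
    have h2 : ∑ u ∈ A.filter (fun v => x v = 1), adj G v u = ∑ u, a v u * x u := by
      rw [Finset.sum_filter]
      have h3 : ∑ u ∈ A, (if x u = 1 then adj G v u else 0) = ∑ u ∈ A, a v u * x u := by
        apply Finset.sum_congr rfl
        intro u hu
        have hau : a v u = adj G v u := by
          simp only [a]
          rw [if_pos ⟨hv.1, hu⟩]
        rw [hau]
        split_ifs with h
        · rw [h, mul_one]
        · rw [zmod2_of_ne_one _ h, mul_zero]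
      rw [h3]
      apply Finset.sum_subset (Finset.subset_univ _)
      intro u _ hu
      simp only [a]
      rw [if_neg (fun h => hu h.2), zero_mul]
    rw [h2]
    have h4 : ∀ s d : ZMod 2, s + (1 + d) * 1 = d → s = 1 := by decide
    exact h4 _ _ h1
  · intro v hv
    rw [Finset.mem_filter] at hv
    rw [even_iff, cast_nbrs]
    have hxv : x v = 0 := zmod2_of_ne_one _ hv.2
    have h1 := hx' v
    rw [hxv] at h1
    have h2 : ∑ u ∈ A.filter (fun v => ¬ x v = 1), adj G v u = ∑ u, a v u * (1 + x u) := by
      rw [Finset.sum_filter]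
      have h3 : ∑ u ∈ A, (if ¬ x u = 1 then adj G v u else 0) = ∑ u ∈ A, a v u * (1 + x u) := by
        apply Finset.sum_congr rfl
        intro u hu
        have hau : a v u = adj G v u := by
          simp only [a]
          rw [if_pos ⟨hv.1, hu⟩]
        rw [hau]
        by_cases h : x u = 1
        · rw [if_neg (not_not.mpr h), h]
          have : (1 : ZMod 2) + 1 = 0 := by decide
          rw [this, mul_zero]
        · rw [if_pos h, zmod2_of_ne_one _ h, add_zero, mul_one]
      rw [h3]
      apply Finset.sum_subset (Finset.subset_univ _)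
      intro u _ hu
      simp only [a]
      rw [if_neg (fun h => hu h.2), zero_mul]
    rw [h2]
    simp only [mul_add, mul_one, Finset.sum_add_distrib]
    have h4 : ∀ s d : ZMod 2, s + (1 + d) * 0 = d → d + s = 0 := by decide
    exact h4 _ _ h1

end Gallai

/-! ### Unions of odd sets -/

section Unions

variable {V : Type} [Fintype V] {G : SimpleGraph V}

theorem filter_union_card (S T : Finset V) (hd : Disjoint S T) (v : V) :
    ((S ∪ T).filter (fun u => G.Adj v u)).card
      = (S.filter (fun u => G.Adj v u)).card + (T.filter (fun u => G.Adj v u)).card := by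
  rw [Finset.filter_union, Finset.card_union_of_disjoint]
  exact Finset.disjoint_filter_filter hd

theorem union_join (S T : Finset V) (hd : Disjoint S T) (hj : ∀ s ∈ S, ∀ t ∈ T, G.Adj s t)
    (h1 : ∀ v ∈ S, Odd ((S.filter (fun u => G.Adj v u)).card + T.card))
    (h2 : ∀ v ∈ T, Odd ((T.filter (fun u => G.Adj v u)).card + S.card)) :
    OddInduced G (S ∪ T) := by
  intro v hv
  rw [filter_union_card S T hd]
  rw [Finset.mem_union] at hv
  rcases hv with hv | hv
  · have : T.filter (fun u => G.Adj v u) = T := by
      rw [Finset.filter_eq_self]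
      intro u hu
      exact hj v hv u hu
    rw [this]
    exact h1 v hv
  · have : S.filter (fun u => G.Adj v u) = S := by
      rw [Finset.filter_eq_self]
      intro u hu
      exact (hj u hu v hv).symm
    rw [this, add_comm]
    exact h2 v hv

theorem union_disc (S T : Finset V) (hd : Disjoint S T) (hn : ∀ s ∈ S, ∀ t ∈ T, ¬ G.Adj s t)
    (h1 : OddInduced G S) (h2 : OddInduced G T) : OddInduced G (S ∪ T) := by
  intro v hv
  rw [filter_union_card S T hd]
  rw [Finset.mem_union] at hv
  rcases hv with hv | hv
  · have : T.filter (fun u => G.Adj v u) = ∅ := by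
      rw [Finset.filter_eq_empty_iff]
      intro u hu
      exact hn v hv u hu
    rw [this, Finset.card_empty, add_zero]
    exact h1 v hv
  · have : S.filter (fun u => G.Adj v u) = ∅ := by
      rw [Finset.filter_eq_empty_iff]
      intro u hu h
      exact hn u hu v hv h.symm
    rw [this, Finset.card_empty, zero_add]
    exact h2 v hv

theorem edge_odd (a b : V) (hab : G.Adj a b) : OddInduced G {a, b} := by
  intro v hv
  rw [Finset.mem_insert, Finset.mem_singleton] at hv
  rcases hv with rfl | rfl
  · have : ({v, b} : Finset V).filter (fun u => G.Adj v u) = {b} := by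
      ext u
      simp only [Finset.mem_filter, Finset.mem_insert, Finset.mem_singleton]
      constructor
      · rintro ⟨rfl | rfl, h⟩
        · exact absurd h (G.irrefl)
        · rfl
      · rintro rfl
        exact ⟨Or.inr rfl, hab⟩
    rw [this, Finset.card_singleton]
    exact odd_one
  · have : ({a, v} : Finset V).filter (fun u => G.Adj v u) = {a} := by
      ext u
      simp only [Finset.mem_filter, Finset.mem_insert, Finset.mem_singleton]
      constructor
      · rintro ⟨rfl | rfl, h⟩
        · rfl
        · exact absurd h (G.irrefl)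
      · rintro rfl
        exact ⟨Or.inl rfl, hab.symm⟩
    rw [this, Finset.card_singleton]
    exact odd_one

theorem exists_odd_subset (A : Finset V) (hA : A.Nonempty) :
    ∃ A' ⊆ A, Odd A'.card ∧ A.card ≤ A'.card + 1 := by
  rcases Nat.even_or_odd A.card with h | h
  · obtain ⟨A', hsub, hc⟩ := Finset.exists_subset_card_eq (n := A.card - 1) (s := A) (by omega)
    have hpos := Finset.card_pos.mpr hA
    refine ⟨A', hsub, ?_, by omega⟩
    rw [hc]
    obtain ⟨k, hk⟩ := h
    exact ⟨k - 1, by omega⟩
  · exact ⟨A, Finset.Subset.refl _, h, by omega⟩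

/-- The bound for joins. -/
theorem join_bound (A B : Finset V) (hA : A.Nonempty) (hB : B.Nonempty) (hd : Disjoint A B)
    (hj : ∀ a ∈ A, ∀ b ∈ B, G.Adj a b) :
    ∃ S ⊆ A ∪ B, OddInduced G S ∧ (A ∪ B).card ≤ 3 * S.card := by
  rw [Finset.card_union_of_disjoint hd]
  by_cases hsmall : A.card + B.card ≤ 6
  · obtain ⟨a, ha⟩ := hA
    obtain ⟨b, hb⟩ := hB
    have hab := hj a ha b hb
    refine ⟨{a, b}, ?_, edge_odd a b hab, ?_⟩
    · intro x hx
      rw [Finset.mem_insert, Finset.mem_singleton] at hx
      rcases hx with rfl | rfl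
      · exact Finset.mem_union_left _ ha
      · exact Finset.mem_union_right _ hb
    · rw [Finset.card_pair hab.ne]
      omega
  · obtain ⟨A', hA'sub, hA'odd, hA'card⟩ := exists_odd_subset A hA
    obtain ⟨B', hB'sub, hB'odd, hB'card⟩ := exists_odd_subset B hB
    obtain ⟨TA, RA, hA1, hA2, hA3, hA4⟩ := gallai G A'
    obtain ⟨TB, RB, hB1, hB2, hB3, hB4⟩ := gallai G B'
    have hTA : TA ⊆ A := by
      intro x hx; apply hA'sub; rw [← hA1]; exact Finset.mem_union_left _ hx
    have hRA : RA ⊆ A := by
      intro x hx; apply hA'sub; rw [← hA1]; exact Finset.mem_union_right _ hx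
    have hTB : TB ⊆ B := by
      intro x hx; apply hB'sub; rw [← hB1]; exact Finset.mem_union_left _ hx
    have hRB : RB ⊆ B := by
      intro x hx; apply hB'sub; rw [← hB1]; exact Finset.mem_union_right _ hx
    have cA : A'.card = TA.card + RA.card := by
      rw [← hA1, Finset.card_union_of_disjoint hA2]
    have cB : B'.card = TB.card + RB.card := by
      rw [← hB1, Finset.card_union_of_disjoint hB2]
    have eTA := hA3.even
    have eTB := hB3.even
    have oRA : Odd RA.card := by
      rw [cA] at hA'odd
      rcases Nat.even_or_odd RA.card with h | h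
      · exfalso
        exact (Nat.not_even_iff_odd.mpr hA'odd) (eTA.add h)
      · exact h
    have oRB : Odd RB.card := by
      rw [cB] at hB'odd
      rcases Nat.even_or_odd RB.card with h | h
      · exfalso
        exact (Nat.not_even_iff_odd.mpr hB'odd) (eTB.add h)
      · exact h
    have d1 : Disjoint TA TB := Finset.disjoint_of_subset_left hTA (Finset.disjoint_of_subset_right hTB hd)
    have d2 : Disjoint RA RB := Finset.disjoint_of_subset_left hRA (Finset.disjoint_of_subset_right hRB hd)
    have o1 : OddInduced G (TA ∪ TB) := by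
      apply union_join TA TB d1 (fun s hs t ht => hj s (hTA hs) t (hTB ht))
      · intro v hv
        exact (hA3 v hv).add_even eTB
      · intro v hv
        exact (hB3 v hv).add_even eTA
    have o2 : OddInduced G (RA ∪ RB) := by
      apply union_join RA RB d2 (fun s hs t ht => hj s (hRA hs) t (hRB ht))
      · intro v hv
        exact (hA4 v hv).add_odd oRB
      · intro v hv
        exact (hB4 v hv).add_odd oRA
    have c1 : (TA ∪ TB).card = TA.card + TB.card := Finset.card_union_of_disjoint d1
    have c2 : (RA ∪ RB).card = RA.card + RB.card := Finset.card_union_of_disjoint d2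
    by_cases hcmp : (TA ∪ TB).card ≤ (RA ∪ RB).card
    · refine ⟨RA ∪ RB, Finset.union_subset_union hRA hRB, o2, ?_⟩
      omega
    · refine ⟨TA ∪ TB, Finset.union_subset_union hTA hTB, o1, ?_⟩
      omega

end Unions

/-! ### Seinsche's theorem -/

section Seinsche

variable {V : Type} [Fintype V]

/-- No induced path on four vertices, spelled out. -/
def P4Free (G : SimpleGraph V) : Prop :=
  ∀ a b c d, G.Adj a b → G.Adj b c → G.Adj c d → ¬ G.Adj a c → ¬ G.Adj b d → ¬ G.Adj a d → False

theorem P4Free.compl {G : SimpleGraph V} (h : P4Free G) : P4Free Gᶜ := by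
  intro a b c d hab hbc hcd hac hbd had
  rw [SimpleGraph.compl_adj] at hab hbc hcd hac hbd had
  have nac : a ≠ c := by
    rintro rfl
    exact had hcd
  have nbd : b ≠ d := by
    rintro rfl
    exact had hab
  have nad : a ≠ d := by
    rintro rfl
    exact hac ⟨hcd.1.symm, fun h => hcd.2 h.symm⟩
  have e1 : G.Adj a c := by
    by_contra hcon; exact hac ⟨nac, hcon⟩
  have e2 : G.Adj b d := by
    by_contra hcon; exact hbd ⟨nbd, hcon⟩
  have e3 : G.Adj a d := by
    by_contra hcon; exact had ⟨nad, hcon⟩
  exact h c a d b e1.symm e3 e2.symm hcd.2 hab.2 (fun h => hbc.2 h.symm)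

theorem IsCograph.p4Free {G : SimpleGraph V} (h : IsCograph G) : P4Free G := by
  intro a b c d hab hbc hcd hac hbd had
  apply h.false
  have nac : a ≠ c := by
    rintro rfl
    exact had hcd
  have nbd : b ≠ d := by
    rintro rfl
    exact had hab
  have nad : a ≠ d := by
    rintro rfl
    exact hac hcd.symm
  refine ⟨⟨![a, b, c, d], ?_⟩, ?_⟩
  · intro i j hij
    fin_cases i <;> fin_cases j <;> simp_all [hab.ne, hbc.ne, hcd.ne, hab.ne', hbc.ne', hcd.ne', nac.symm, nbd.symm, nad.symm]
  · have hca : ¬ G.Adj c a := fun h => hac h.symm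
    have hdb : ¬ G.Adj d b := fun h => hbd h.symm
    have hda : ¬ G.Adj d a := fun h => had h.symm
    intro i j
    change G.Adj (![a, b, c, d] i) (![a, b, c, d] j) ↔ _
    fin_cases i <;> fin_cases j <;>
      simp [SimpleGraph.pathGraph_adj, hab, hbc, hcd, hac, hbd, had, hab.symm, hbc.symm, hcd.symm,
        hca, hdb, hda]

/-- One induction step, in the disconnected case. -/
theorem seinsche_step (G : SimpleGraph V) (hG : P4Free G) (W : Finset V) (v : V) (hv : v ∉ W)
    (A B : Finset V) (hAB : A ∪ B = W) (hd : Disjoint A B) (hA : A.Nonempty) (hB : B.Nonempty)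
    (hn : ∀ a ∈ A, ∀ b ∈ B, ¬ G.Adj a b) :
    ∃ A' B' : Finset V, A' ∪ B' = insert v W ∧ Disjoint A' B' ∧ A'.Nonempty ∧ B'.Nonempty ∧
      ((∀ a ∈ A', ∀ b ∈ B', ¬ G.Adj a b) ∨ (∀ a ∈ A', ∀ b ∈ B', G.Adj a b)) := by
  -- a non-neighbour of `v` in `A`, with `v` having a neighbour in `B`
  have main : ∀ A B : Finset V, A ∪ B = W → Disjoint A B → A.Nonempty → B.Nonempty →
      (∀ a ∈ A, ∀ b ∈ B, ¬ G.Adj a b) → (∃ b ∈ B, G.Adj v b) → (∃ a ∈ A, ¬ G.Adj v a) →
      ∃ A' B' : Finset V, A' ∪ B' = insert v W ∧ Disjoint A' B' ∧ A'.Nonempty ∧ B'.Nonempty ∧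
      ((∀ a ∈ A', ∀ b ∈ B', ¬ G.Adj a b) ∨ (∀ a ∈ A', ∀ b ∈ B', G.Adj a b)) := by
    intro A B hAB hd hA hB hn hbv hav
    obtain ⟨x, hxB, hxv⟩ := hbv
    obtain ⟨w0, hw0A, hw0v⟩ := hav
    have hvA : v ∉ A := fun h => hv (by rw [← hAB]; exact Finset.mem_union_left _ h)
    have hvB : v ∉ B := fun h => hv (by rw [← hAB]; exact Finset.mem_union_right _ h)
    refine ⟨A.filter (fun a => ¬ G.Adj v a), insert v (B ∪ A.filter (fun a => G.Adj v a)), ?_, ?_,
      ⟨w0, by rw [Finset.mem_filter]; exact ⟨hw0A, hw0v⟩⟩, ⟨v, Finset.mem_insert_self _ _⟩, ?_⟩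
    · rw [← hAB]
      ext y
      simp only [Finset.mem_union, Finset.mem_filter, Finset.mem_insert]
      tauto
    · rw [Finset.disjoint_left]
      intro y hy hy2
      simp only [Finset.mem_union, Finset.mem_filter, Finset.mem_insert] at hy hy2
      rcases hy2 with rfl | h | h
      · exact hvA hy.1
      · exact (Finset.disjoint_left.mp hd) hy.1 h
      · exact hy.2 h.2
    · left
      intro a ha b hb hadj
      simp only [Finset.mem_union, Finset.mem_filter, Finset.mem_insert] at ha hb
      rcases hb with rfl | h | h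
      · exact ha.2 hadj.symm
      · exact hn a ha.1 b h hadj
      · -- a - b - v - x is an induced path
        exact hG a b v x hadj h.2.symm hxv (fun h' => ha.2 h'.symm) (hn b h.1 x hxB)
          (hn a ha.1 x hxB)
  by_cases h1 : ∃ a ∈ A, G.Adj v a
  · by_cases h2 : ∃ b ∈ B, G.Adj v b
    · by_cases h3 : ∃ a ∈ A, ¬ G.Adj v a
      · exact main A B hAB hd hA hB hn h2 h3
      · by_cases h4 : ∃ b ∈ B, ¬ G.Adj v b
        · exact main B A (by rw [Finset.union_comm]; exact hAB) hd.symm hB hA
            (fun b hb a ha h => hn a ha b hb h.symm) h1 h4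
        · refine ⟨{v}, W, ?_, ?_, ⟨v, Finset.mem_singleton_self v⟩, ?_, Or.inr ?_⟩
          · rfl
          · rw [Finset.disjoint_singleton_left]
            exact hv
          · rw [← hAB]
            exact hA.mono Finset.subset_union_left
          · intro a ha b hb
            rw [Finset.mem_singleton] at ha
            rw [ha]
            rw [← hAB, Finset.mem_union] at hb
            rcases hb with hb | hb
            · by_contra hcon
              exact h3 ⟨b, hb, hcon⟩
            · by_contra hcon
              exact h4 ⟨b, hb, hcon⟩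
    · refine ⟨insert v A, B, ?_, ?_, ⟨v, Finset.mem_insert_self _ _⟩, hB, Or.inl ?_⟩
      · rw [← hAB, Finset.insert_union]
      · rw [Finset.disjoint_insert_left]
        exact ⟨fun h => hv (by rw [← hAB]; exact Finset.mem_union_right _ h), hd⟩
      · intro a ha b hb h
        rw [Finset.mem_insert] at ha
        rcases ha with rfl | ha
        · exact h2 ⟨b, hb, h⟩
        · exact hn a ha b hb h
  · refine ⟨A, insert v B, ?_, ?_, hA, ⟨v, Finset.mem_insert_self _ _⟩, Or.inl ?_⟩
    · rw [← hAB, Finset.union_insert]
    · rw [Finset.disjoint_insert_right]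
      exact ⟨fun h => hv (by rw [← hAB]; exact Finset.mem_union_left _ h), hd⟩
    · intro a ha b hb h
      rw [Finset.mem_insert] at hb
      rcases hb with rfl | hb
      · exact h1 ⟨a, ha, h.symm⟩
      · exact hn a ha b hb h

theorem seinsche (G : SimpleGraph V) (hG : P4Free G) (W : Finset V) : 2 ≤ W.card →
    ∃ A B : Finset V, A ∪ B = W ∧ Disjoint A B ∧ A.Nonempty ∧ B.Nonempty ∧
      ((∀ a ∈ A, ∀ b ∈ B, ¬ G.Adj a b) ∨ (∀ a ∈ A, ∀ b ∈ B, G.Adj a b)) := by
  induction W using Finset.induction_on with
  | empty => intro h; simp at h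
  | insert v W hv ih =>
    intro hcard
    rw [Finset.card_insert_of_notMem hv] at hcard
    by_cases h2 : 2 ≤ W.card
    · obtain ⟨A, B, hAB, hd, hA, hB, h | h⟩ := ih h2
      · exact seinsche_step G hG W v hv A B hAB hd hA hB h
      · have hn : ∀ a ∈ A, ∀ b ∈ B, ¬ Gᶜ.Adj a b := by
          intro a ha b hb hadj
          rw [SimpleGraph.compl_adj] at hadj
          exact hadj.2 (h a ha b hb)
        obtain ⟨A', B', hAB', hd', hA', hB', h' | h'⟩ :=
          seinsche_step Gᶜ hG.compl W v hv A B hAB hd hA hB hn
        · refine ⟨A', B', hAB', hd', hA', hB', Or.inr ?_⟩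
          intro a ha b hb
          by_contra hcon
          apply h' a ha b hb
          rw [SimpleGraph.compl_adj]
          refine ⟨?_, hcon⟩
          rintro rfl
          exact (Finset.disjoint_left.mp hd') ha hb
        · refine ⟨A', B', hAB', hd', hA', hB', Or.inl ?_⟩
          intro a ha b hb hadj
          have := h' a ha b hb
          rw [SimpleGraph.compl_adj] at this
          exact this.2 hadj
    · have h1 : W.card = 1 := by omega
      obtain ⟨w, rfl⟩ := Finset.card_eq_one.mp h1
      rw [Finset.mem_singleton] at hv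
      refine ⟨{v}, {w}, rfl, ?_, ⟨v, Finset.mem_singleton_self v⟩,
        ⟨w, Finset.mem_singleton_self w⟩, ?_⟩
      · rw [Finset.disjoint_singleton]
        exact hv
      · by_cases hadj : G.Adj v w
        · right
          intro a ha b hb
          rw [Finset.mem_singleton] at ha hb
          rw [ha, hb]
          exact hadj
        · left
          intro a ha b hb
          rw [Finset.mem_singleton] at ha hb
          rw [ha, hb]
          exact hadj

/-- The lower bound: a cograph without isolated vertices has an odd induced subgraph on at least a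
third of its vertices. -/
theorem lower (G : SimpleGraph V) (hG : P4Free G) : ∀ (k : ℕ) (W : Finset V), W.card ≤ k →
    (∀ v ∈ W, ∃ u ∈ W, G.Adj v u) → ∃ S ⊆ W, OddInduced G S ∧ W.card ≤ 3 * S.card := by
  intro k
  induction k with
  | zero =>
    intro W hW _
    refine ⟨∅, Finset.empty_subset _, ?_, by omega⟩
    intro v hv
    simp at hv
  | succ k ih =>
    intro W hW hiso
    by_cases h2 : 2 ≤ W.card
    · obtain ⟨A, B, hAB, hd, hA, hB, h | h⟩ := seinsche G hG W h2
      · have hc : W.card = A.card + B.card := by
          rw [← hAB, Finset.card_union_of_disjoint hd]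
        have hApos := Finset.card_pos.mpr hA
        have hBpos := Finset.card_pos.mpr hB
        obtain ⟨S, hSA, hS, hSc⟩ := ih A (by omega) (by
          intro v hv
          obtain ⟨u, hu, hadj⟩ := hiso v (by rw [← hAB]; exact Finset.mem_union_left _ hv)
          rw [← hAB, Finset.mem_union] at hu
          rcases hu with hu | hu
          · exact ⟨u, hu, hadj⟩
          · exact absurd hadj (h v hv u hu))
        obtain ⟨T, hTB, hT, hTc⟩ := ih B (by omega) (by
          intro v hv
          obtain ⟨u, hu, hadj⟩ := hiso v (by rw [← hAB]; exact Finset.mem_union_right _ hv)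
          rw [← hAB, Finset.mem_union] at hu
          rcases hu with hu | hu
          · exact absurd hadj.symm (h u hu v hv)
          · exact ⟨u, hu, hadj⟩)
        have hdST : Disjoint S T :=
          Finset.disjoint_of_subset_left hSA (Finset.disjoint_of_subset_right hTB hd)
        refine ⟨S ∪ T, ?_, union_disc S T hdST (fun s hs t ht => h s (hSA hs) t (hTB ht)) hS hT, ?_⟩
        · rw [← hAB]
          exact Finset.union_subset_union hSA hTB
        · rw [Finset.card_union_of_disjoint hdST]
          omega
      · obtain ⟨S, hS1, hS2, hS3⟩ := join_bound A B hA hB hd h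
        rw [hAB] at hS1 hS3
        exact ⟨S, hS1, hS2, hS3⟩
    · -- at most one vertex: it would be isolated
      have : W = ∅ := by
        by_contra hne
        obtain ⟨v, hv⟩ := Finset.nonempty_of_ne_empty hne
        obtain ⟨u, hu, hadj⟩ := hiso v hv
        have : 2 ≤ W.card := by
          rw [← Finset.card_pair hadj.ne]
          apply Finset.card_le_card
          intro x hx
          rw [Finset.mem_insert, Finset.mem_singleton] at hx
          rcases hx with rfl | rfl
          · exact hv
          · exact hu
        exact h2 this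
      rw [this]
      refine ⟨∅, Finset.Subset.refl _, ?_, by simp⟩
      intro v hv
      simp at hv

end Seinsche

/-! ### The extremal graphs -/

section Upper

/-- The extremal graph on `n` vertices: `k` blocks, each complete multipartite with three parts. -/
def ext (n k : ℕ) : SimpleGraph (Fin n) where
  Adj i j := i.val % k = j.val % k ∧ (i.val / k) % 3 ≠ (j.val / k) % 3
  symm := ⟨fun _ _ h => ⟨h.1.symm, h.2.symm⟩⟩
  loopless := ⟨fun _ h => h.2 rfl⟩

theorem ext_cograph (n k : ℕ) : IsCograph (ext n k) := by
  constructor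
  intro f
  have h01 : (ext n k).Adj (f 0) (f 1) := by
    rw [f.map_adj_iff]; simp [SimpleGraph.pathGraph_adj]
  have h12 : (ext n k).Adj (f 1) (f 2) := by
    rw [f.map_adj_iff]; simp [SimpleGraph.pathGraph_adj]
  have h23 : (ext n k).Adj (f 2) (f 3) := by
    rw [f.map_adj_iff]; simp [SimpleGraph.pathGraph_adj]
  have h02 : ¬ (ext n k).Adj (f 0) (f 2) := by
    rw [f.map_adj_iff]; simp [SimpleGraph.pathGraph_adj]
  have h03 : ¬ (ext n k).Adj (f 0) (f 3) := by
    rw [f.map_adj_iff]; simp [SimpleGraph.pathGraph_adj]
  have a01 := h01.1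
  have a12 := h12.1
  have a23 := h23
  have e1 : ((f 0).val / k) % 3 = ((f 2).val / k) % 3 := by
    by_contra hcon
    exact h02 ⟨a01.trans a12, hcon⟩
  have e2 : ((f 0).val / k) % 3 = ((f 3).val / k) % 3 := by
    by_contra hcon
    exact h03 ⟨(a01.trans a12).trans h23.1, hcon⟩
  exact h23.2 (e1.symm.trans e2)

theorem ext_noiso (n k : ℕ) (hk : 0 < k) (hn : 2 * k ≤ n) :
    ∀ v, ∃ u, (ext n k).Adj v u := by
  intro v
  have hb : v.val % k < k := Nat.mod_lt _ hk
  by_cases hq : (v.val / k) % 3 = 0
  · refine ⟨⟨v.val % k + k, by omega⟩, ?_, ?_⟩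
    · change v.val % k = (v.val % k + k) % k
      rw [Nat.add_mod_right, Nat.mod_mod]
    · change (v.val / k) % 3 ≠ ((v.val % k + k) / k) % 3
      rw [Nat.add_div_right _ hk, Nat.div_eq_of_lt hb, hq]
      decide
  · refine ⟨⟨v.val % k, by omega⟩, ?_, ?_⟩
    · change v.val % k = (v.val % k) % k
      rw [Nat.mod_mod]
    · change (v.val / k) % 3 ≠ ((v.val % k) / k) % 3
      rw [Nat.div_eq_of_lt hb]
      simpa using hq

theorem ext_upper (n k : ℕ) (hk : 0 < k) (hn : n ≤ 6 * k) (S : Finset (Fin n))
    (hS : OddInduced (ext n k) S) : S.card ≤ 2 * k := by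
  have hfib : S.card = ∑ b ∈ Finset.range k, (S.filter (fun i => i.val % k = b)).card := by
    apply Finset.card_eq_sum_card_fiberwise
    intro i _
    simp only [Finset.coe_range, Set.mem_Iio]
    exact Nat.mod_lt _ hk
  rw [hfib]
  have hblock : ∀ b ∈ Finset.range k, (S.filter (fun i => i.val % k = b)).card ≤ 2 := by
    intro b _
    set B := S.filter (fun i => i.val % k = b) with hB
    -- colour classes inside the block
    have hcls : ∀ c, (B.filter (fun i => (i.val / k) % 3 = c)).card ≤ 2 := by
      intro c
      have hsub : (B.filter (fun i => (i.val / k) % 3 = c)).image (fun i => i.val / k)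
          ⊆ {c, c + 3} := by
        intro q hq
        rw [Finset.mem_image] at hq
        obtain ⟨i, hi, rfl⟩ := hq
        rw [Finset.mem_filter] at hi
        have h1 : i.val / k < 6 := by
          rw [Nat.div_lt_iff_lt_mul hk]
          have := i.2
          omega
        have h2 := hi.2
        rw [Finset.mem_insert, Finset.mem_singleton]
        generalize i.val / k = q at *
        omega
      have hinj : Set.InjOn (fun i : Fin n => i.val / k)
          (B.filter (fun i => (i.val / k) % 3 = c) : Finset (Fin n)) := by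
        intro i hi j hj hij
        rw [Finset.mem_coe, Finset.mem_filter, hB, Finset.mem_filter] at hi hj
        have e1 := Nat.div_add_mod i.val k
        have e2 := Nat.div_add_mod j.val k
        apply Fin.ext
        simp only at hij
        rw [← e1, ← e2, hij, hi.1.2, hj.1.2]
      calc _ = ((B.filter (fun i => (i.val / k) % 3 = c)).image (fun i => i.val / k)).card :=
            (Finset.card_image_of_injOn hinj).symm
        _ ≤ ({c, c + 3} : Finset ℕ).card := Finset.card_le_card hsub
        _ ≤ 2 := Finset.card_le_two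
    have htot : B.card = ∑ c ∈ Finset.range 3, (B.filter (fun i => (i.val / k) % 3 = c)).card := by
      apply Finset.card_eq_sum_card_fiberwise
      intro i _
      simp only [Finset.coe_range, Set.mem_Iio]
      exact Nat.mod_lt _ (by norm_num)
    rw [Finset.sum_range_succ, Finset.sum_range_succ, Finset.sum_range_one] at htot
    have hpar : ∀ c, 0 < (B.filter (fun i => (i.val / k) % 3 = c)).card →
        Odd (B.card - (B.filter (fun i => (i.val / k) % 3 = c)).card) := by
      intro c hpos
      obtain ⟨v, hv⟩ := Finset.card_pos.mp hpos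
      rw [Finset.mem_filter] at hv
      have hvS : v ∈ S := by
        have := hv.1
        rw [hB, Finset.mem_filter] at this
        exact this.1
      have hvb : v.val % k = b := by
        have := hv.1
        rw [hB, Finset.mem_filter] at this
        exact this.2
      have hodd := hS v hvS
      have hcomp : S.filter (fun u => (ext n k).Adj v u)
          = B.filter (fun i => ¬ (i.val / k) % 3 = c) := by
        ext u
        rw [hB]
        simp only [Finset.mem_filter]
        change u ∈ S ∧ (v.val % k = u.val % k ∧ (v.val / k) % 3 ≠ (u.val / k) % 3) ↔ _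
        rw [hvb, hv.2]
        constructor
        · rintro ⟨h1, h2, h3⟩
          exact ⟨⟨h1, h2.symm⟩, fun h => h3 h.symm⟩
        · rintro ⟨⟨h1, h2⟩, h3⟩
          exact ⟨h1, h2.symm, fun h => h3 h.symm⟩
      have hsplit := Finset.card_filter_add_card_filter_not (s := B)
        (fun i => (i.val / k) % 3 = c)
      rw [hcomp] at hodd
      have : (B.filter (fun i => ¬ (i.val / k) % 3 = c)).card
          = B.card - (B.filter (fun i => (i.val / k) % 3 = c)).card := by omega
      rw [← this]
      exact hodd
    have h0 := hpar 0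
    have h1 := hpar 1
    have h2 := hpar 2
    have g0 := hcls 0
    have g1 := hcls 1
    have g2 := hcls 2
    generalize (B.filter (fun i => (i.val / k) % 3 = 0)).card = s0 at *
    generalize (B.filter (fun i => (i.val / k) % 3 = 1)).card = s1 at *
    generalize (B.filter (fun i => (i.val / k) % 3 = 2)).card = s2 at *
    simp only [Nat.odd_iff] at h0 h1 h2
    omega
  calc ∑ b ∈ Finset.range k, (S.filter (fun i => i.val % k = b)).card
      ≤ ∑ b ∈ Finset.range k, 2 := Finset.sum_le_sum hblock
    _ = 2 * k := by simp [mul_comm]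

end Upper

/-! ### The main result -/

theorem mos_bddAbove {V : Type} [Fintype V] (G : SimpleGraph V) :
    BddAbove {k | ∃ S : Finset V, OddInduced G S ∧ S.card = k} := by
  refine ⟨Fintype.card V, ?_⟩
  rintro k ⟨S, _, rfl⟩
  exact Finset.card_le_univ S

theorem empty_odd {V : Type} (G : SimpleGraph V) : OddInduced G ∅ := by
  intro v hv
  simp at hv

theorem le_mos {V : Type} [Fintype V] (G : SimpleGraph V) (S : Finset V) (hS : OddInduced G S) :
    S.card ≤ mos G :=
  le_csSup (mos_bddAbove G) ⟨S, hS, rfl⟩

theorem mos_le {V : Type} [Fintype V] (G : SimpleGraph V) (m : ℕ)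
    (h : ∀ S, OddInduced G S → S.card ≤ m) : mos G ≤ m := by
  apply csSup_le
  · exact ⟨0, ∅, empty_odd G, rfl⟩
  · rintro k ⟨S, hS, rfl⟩
    exact h S hS

theorem minMos_eq (n : ℕ) (hn : 2 ≤ n) : minMos n = 2 * ((n + 5) / 6) := by
  set k := (n + 5) / 6 with hk
  have hk0 : 0 < k := by omega
  have h6 : n ≤ 6 * k := by omega
  have h2k : 2 * k ≤ n := by omega
  have hmem : mos (ext n k) ∈ {k | ∃ G : SimpleGraph (Fin n), IsCograph G ∧
      (∀ v, ∃ u, G.Adj v u) ∧ mos G = k} :=
    ⟨ext n k, ext_cograph n k, ext_noiso n k hk0 h2k, rfl⟩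
  apply le_antisymm
  · calc minMos n ≤ mos (ext n k) := Nat.sInf_le hmem
      _ ≤ 2 * k := mos_le _ _ (ext_upper n k hk0 h6)
  · apply le_csInf ⟨_, hmem⟩
    rintro m ⟨G, hG, hiso, rfl⟩
    obtain ⟨S, _, hS, hc⟩ := lower G hG.p4Free n Finset.univ (by simp) (by
      intro v _
      obtain ⟨u, hu⟩ := hiso v
      exact ⟨u, Finset.mem_univ _, hu⟩)
    have h1 := le_mos G S hS
    have h3 := hS.even
    rw [Finset.card_univ, Fintype.card_fin] at hc
    obtain ⟨j, hj⟩ := h3
    omega

/-- For every `n ≥ 2`, the least value of `mos` over the cographs on `n` vertices without isolated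
vertices is `2 ⌈n / 6⌉`. -/
theorem result (n : ℕ) (hn : 2 ≤ n) : minMos n = 2 * ⌈(n : ℚ) / 6⌉₊ := by
  rw [minMos_eq n hn]
  congr 1
  symm
  rw [Nat.ceil_eq_iff (by omega)]
  have h1 : 6 * ((n + 5) / 6) < n + 6 := by omega
  have h2 : n ≤ 6 * ((n + 5) / 6) := by omega
  have h3 : 1 ≤ (n + 5) / 6 := by omega
  constructor
  · rw [lt_div_iff₀ (by norm_num)]
    rw [Nat.cast_sub h3]
    have h1' : (6 : ℚ) * (((n + 5) / 6 : ℕ) : ℚ) < n + 6 := by exact_mod_cast h1
    push_cast
    push_cast at h1'
    linarith
  · rw [div_le_iff₀ (by norm_num)]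
    have h2' : (n : ℚ) ≤ 6 * (((n + 5) / 6 : ℕ) : ℚ) := by exact_mod_cast h2
    linarith

end Pool.Agent.Results.MP_007251_co.Cograph
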